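import Pool.Agent.W191.NC.HW
import Pool.Agent.W423.NX.Defs

set_option autoImplicit false

/-! NX-KILL (helper423): the functional kills `k * W`, general terms.
The machinery is that of `Pool.Agent.W191.NC.HW`. -/

namespace Pool.Agent.W688.NX

open MvPolynomial Pool.Agent.H628R4.TZ Pool.Agent.W425.SM Pool.Agent.W423.NC
open Pool.Agent.H628R4.TP hiding Sh
open Pool.Agent.W525.SM (Sh)
open Pool.Agent.W191.NC
open Pool.Agent.W423.NX (KillC RelX TaskKillX)
open MeasureTheory Set Filter Topology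

variable {r N : ℕ}

/-- the pairing with a real relation -/
lemma pairingR (v : Fin r → Fin N → ℕ) (θ : Fin r → ℝ) (α : Fin N → ℝ) (T δ ϑ : ℝ)
    (x : Fin (N+1) → ℝ) (c : Fin r → ℝ) :
    ∑ j, c j * Y (av v) (yW v θ α T δ ϑ) x j =
      ∑ i : Fin N, (∑ j, c j * (v j i : ℝ)) * x i.succ - (∑ j, c j) * (x 0 + T) -
      δ * ∑ i : Fin N, α i * ∑ j, c j * (v j i : ℝ) - ϑ * ∑ j, c j * θ j := by
  have h1 : ∑ i : Fin N, (∑ j, c j * (v j i : ℝ)) * x i.succ =
      ∑ j, c j * ∑ i, (v j i : ℝ) * x i.succ := by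
    simp only [Finset.mul_sum, Finset.sum_mul]
    rw [Finset.sum_comm]
    exact Finset.sum_congr rfl fun i _ => Finset.sum_congr rfl fun j _ => by ring
  have h2 : ∑ i : Fin N, α i * ∑ j, c j * (v j i : ℝ) =
      ∑ j, c j * ∑ i, α i * (v j i : ℝ) := by
    simp only [Finset.mul_sum]
    rw [Finset.sum_comm]
    exact Finset.sum_congr rfl fun i _ => Finset.sum_congr rfl fun j _ => by ring
  rw [h1, h2]
  rw [Finset.sum_mul, Finset.mul_sum, Finset.mul_sum, ← Finset.sum_sub_distrib,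
    ← Finset.sum_sub_distrib, ← Finset.sum_sub_distrib]
  refine Finset.sum_congr rfl fun j _ => ?_
  rw [Y_av', yW]
  ring

/-- the size of a term -/
noncomputable def szX (v : Fin r → Fin N → ℕ) (θ : Fin r → ℝ) (α : Fin N → ℝ)
    (c : Fin r → ℤ) (l : Fin r → ℝ) : ℝ :=
  ∑ j, |(c j : ℝ)| + |∑ i, α i * ∑ j, ((c j : ℝ) + l j) * (v j i : ℝ)| +
    |∑ j, ((c j : ℝ) + l j) * θ j| +
    (∑ j, |(c j : ℝ)| + |∑ j, ((c j : ℝ) + l j) * θ j|) *
      |∑ i, α i * ∑ j, ((c j : ℝ) + l j) * (v j i : ℝ)|⁻¹ +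
    (∑ j, |(c j : ℝ)|) * |∑ j, ((c j : ℝ) + l j) * θ j|⁻¹

lemma szX_nonneg (v : Fin r → Fin N → ℕ) (θ : Fin r → ℝ) (α : Fin N → ℝ)
    (c : Fin r → ℤ) (l : Fin r → ℝ) : 0 ≤ szX v θ α c l := by
  unfold szX; positivity

lemma killX (v : Fin r → Fin N → ℕ) (w : Fin N → ℝ) (θ : Fin r → ℝ) (α : Fin N → ℝ) (ε : ℝ)
    (hε : 0 < ε) (κ : Fin r → ℕ) (M : ℕ)
    (hκ : ∀ j, κ j ≤ M) (s T δ ϑ : ℝ) (hδ : 0 < δ) (hϑ : 0 < ϑ) (c : Fin r → ℤ)
    (B : Finset (Fin N)) (l : Fin r → ℝ) (hl : ∀ j, 0 ≤ l j)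
    (hB : ∀ i, i ∉ B → ∑ j, ((c j : ℝ) + l j) * (v j i : ℝ) ≤ 0)
    (hc : ∑ j, ((c j : ℝ) + l j) = 1 ∨ (∑ j, ((c j : ℝ) + l j) = 0 ∧
      (0 < ∑ i, α i * ∑ j, ((c j : ℝ) + l j) * (v j i : ℝ) ∨
        (∑ i, α i * ∑ j, ((c j : ℝ) + l j) * (v j i : ℝ) = 0 ∧
          0 < ∑ j, ((c j : ℝ) + l j) * θ j))))
    (h1T : ε * szX v θ α c l < ϑ) (h2T : (ε + ϑ) * szX v θ α c l < δ)
    (h3T : (ε + δ + ϑ) * szX v θ α c l < T)
    (S : Finset (Fin N)) (q : MvPolynomial (Fin r) ℂ) (hS : B ⊆ S) :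
    HW v w ε κ s (yW v θ α T δ ϑ) S (q * ∏ j, (if c j < 0 then X j * dm M j else 1)) = 0 := by
  classical
  unfold HW
  refine integral_eq_zero_of_ae ?_
  filter_upwards [ae_ms (S.map (Fin.succEmb N))] with x hx
  obtain ⟨hx0, hxS⟩ := hx
  by_contra hne
  have hne' : DD (pk ε κ) (Y (av v) (yW v θ α T δ ϑ) x)
      (q * ∏ j, (if c j < 0 then X j * dm M j else 1)) ≠ 0 := by
    intro h
    apply hne
    simp only [Pi.zero_apply]
    rw [h, mul_zero]
  have h3 := nonvan ε hε κ M hκ c _ q hne'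
  have hy : ∀ j, 0 ≤ Y (av v) (yW v θ α T δ ϑ) x j := by
    rw [mul_comm] at hne'
    exact (Pool.Agent.W423.MG.nonvan2 ε hε κ M hκ c _ q hne').1
  have h4 : -(ε * ∑ j, |(c j : ℝ)|) ≤
      ∑ j, ((c j : ℝ) + l j) * Y (av v) (yW v θ α T δ ϑ) x j := by
    refine h3.trans (Finset.sum_le_sum fun j _ => ?_)
    have := mul_nonneg (hl j) (hy j)
    nlinarith
  rw [pairingR] at h4
  have h5 : ∑ i : Fin N, (∑ j, ((c j : ℝ) + l j) * (v j i : ℝ)) * x i.succ ≤ 0 := by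
    refine Finset.sum_nonpos fun i _ => ?_
    by_cases h : i ∈ B
    · rw [hxS i.succ (by simp [hS h]), mul_zero]
    · exact mul_nonpos_of_nonpos_of_nonneg (hB i h) (hx0 _)
  have h6 := hx0 0
  set a := ∑ i, α i * ∑ j, ((c j : ℝ) + l j) * (v j i : ℝ) with ha
  set b := ∑ j, ((c j : ℝ) + l j) * θ j with hb
  set c1 := ∑ j, |(c j : ℝ)| with hc1
  have c1n : 0 ≤ c1 := by positivity
  have an : 0 ≤ |a| := abs_nonneg a
  have bn : 0 ≤ |b| := abs_nonneg b
  have ha' : -(δ * a) ≤ δ * |a| := by nlinarith [neg_le_abs a]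
  have hb' : -(ϑ * b) ≤ ϑ * |b| := by nlinarith [neg_le_abs b]
  have z1 : 0 ≤ (c1 + |b|) * |a|⁻¹ := by positivity
  have z2 : 0 ≤ c1 * |b|⁻¹ := by positivity
  have hsz : szX v θ α c l = c1 + |a| + |b| + (c1 + |b|) * |a|⁻¹ + c1 * |b|⁻¹ := rfl
  rw [hsz] at h1T h2T h3T
  rcases hc with hc | ⟨hc, hc2 | ⟨hc2, hc3⟩⟩
  · rw [hc] at h4
    have h7 : (ε + δ + ϑ) * (c1 + |a| + |b|) < T := by
      refine lt_of_le_of_lt (mul_le_mul_of_nonneg_left ?_ (by positivity)) h3T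
      linarith
    nlinarith [mul_nonneg hε.le an, mul_nonneg hε.le bn, mul_nonneg hδ.le c1n,
      mul_nonneg hδ.le bn, mul_nonneg hϑ.le c1n, mul_nonneg hϑ.le an]
  · rw [hc] at h4
    have h7 : (ε + ϑ) * ((c1 + |b|) * |a|⁻¹) < δ := by
      refine lt_of_le_of_lt (mul_le_mul_of_nonneg_left ?_ (by positivity)) h2T
      linarith
    rw [abs_of_pos hc2] at h7
    have h8 := mul_lt_mul_of_pos_right h7 hc2
    have h9 : (ε + ϑ) * ((c1 + |b|) * a⁻¹) * a = (ε + ϑ) * (c1 + |b|) := by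
      have := hc2.ne'
      field_simp
    rw [h9] at h8
    nlinarith [mul_nonneg hε.le bn, mul_nonneg hϑ.le c1n]
  · rw [hc, hc2] at h4
    have h7 : ε * (c1 * |b|⁻¹) < ϑ := by
      refine lt_of_le_of_lt (mul_le_mul_of_nonneg_left ?_ (by positivity)) h1T
      linarith
    rw [abs_of_pos hc3] at h7
    have h8 := mul_lt_mul_of_pos_right h7 hc3
    have h9 : ε * (c1 * b⁻¹) * b = ε * c1 := by
      have := hc3.ne'
      field_simp
    rw [h9] at h8
    linarith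

/-- **The functional kills `k * W`.** -/
theorem taskKillX : TaskKillX := by
  intro r N v w hwp θ α e W k hR hk
  classical
  obtain ⟨M, n, c, B, q, hc, hrel⟩ := hR
  choose l hl hlB hlc using hc
  obtain ⟨cf, hcf⟩ := DD_sum (r := r) M
  set KK := Fintype.piFinset (fun _ : Fin r => Finset.range (M+1)) with hKK
  set K1 : ℝ := ∑ t, szX v θ α (c t) (l t) with hK1
  have hK1' : 0 ≤ K1 := Finset.sum_nonneg fun t _ => szX_nonneg v θ α (c t) (l t)
  refine ⟨K1, (∑ κ ∈ KK, (Lam v κ : ℝ)) + 1, hK1', by positivity,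
    fun ε hε ϑ hϑ hεϑ δ hδ hεδ T hT s hs => ?_⟩
  have hle : ∀ t, szX v θ α (c t) (l t) ≤ K1 := fun t =>
    Finset.single_le_sum (f := fun t => szX v θ α (c t) (l t))
      (fun t _ => szX_nonneg v θ α (c t) (l t)) (Finset.mem_univ t)
  have hzero : ∀ κ ∈ KK, HW v w ε κ s (yW v θ α T δ ϑ) ∅ ((k * W) * ∏ j, dm M j) = 0 ∧
      Gd v ε κ ∅ ((k * W) * ∏ j, dm M j) ∧
      (Lam v κ : ℝ) + 1 ≤ s := by
    intro κ hκ
    have hκM : ∀ j, κ j ≤ M := fun j => by
      have := (Fintype.mem_piFinset.1 hκ) j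
      rw [Finset.mem_range] at this
      omega
    have hs' : (Lam v κ : ℝ) + 1 ≤ s := by
      refine le_trans ?_ hs
      have := Finset.single_le_sum (f := fun κ : Fin r → ℕ => (Lam v κ : ℝ))
        (fun _ _ => Nat.cast_nonneg _) hκ
      linarith
    have hGd : Gd v ε κ ∅ ((k * W) * ∏ j, dm M j) := by
      intro i _ hi
      have h1 : ∃ j, 0 < κ j * v j i := by
        by_contra hcon
        push Not at hcon
        have : ell v κ i = 0 := Finset.sum_eq_zero fun j _ => Nat.le_zero.1 (hcon j)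
        omega
      obtain ⟨j, hj⟩ := h1
      have hj1 : 0 < κ j := Nat.pos_of_mul_pos_right hj
      have hj2 : 0 < v j i := Nat.pos_of_mul_pos_left hj
      refine (goodDir_lin hε (κ := κ) j hj2).of_dvd ?_
      refine Dvd.dvd.mul_left ?_ _
      exact (dm_dvd M j (κ j) hj1 (hκM j)).trans (Finset.dvd_prod_of_mem _ (Finset.mem_univ j))
    refine ⟨?_, hGd, hs'⟩
    set L : List (Fin N) := (Finset.univ.filter fun i =>
      0 < ell v κ i ∧ (ell v κ i : ℝ) ≠ w i).toList with hL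
    have hLnd : L.Nodup := Finset.nodup_toList _
    have hLell : ∀ i ∈ L, (ell v κ i : ℝ) ≠ w i := fun i hi => by
      have : 0 < ell v κ i ∧ (ell v κ i : ℝ) ≠ w i := by simpa [hL] using hi
      exact this.2
    have hkgood : ∀ i, i ∉ L → 0 < ell v κ i → GoodDir v ε κ i (k * e) := by
      intro i hi h
      have h1 : (ell v κ i : ℝ) = w i := by
        by_contra h'
        exact hi (by rw [hL, Finset.mem_toList, Finset.mem_filter]; exact ⟨Finset.mem_univ _, h, h'⟩)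
      have h2 := hk κ i h1
      rw [← Submodule.mem_toAddSubmonoid] at h2
      refine Submodule.span_induction (p := fun x _ => GoodDir v ε κ i x) ?_ ?_ ?_ ?_
        (by simpa [Ideal.span] using h2)
      · rintro x ⟨j, hj, rfl⟩
        exact goodDir_lin hε j hj
      · exact GoodDir.zero
      · intro x y _ _ hx hy
        exact hx.add hy
      · intro a x _ hx
        exact hx.mul_left a
    rw [← FW_eq v w hwp ε hε κ s hs' _ L ∅ _ (by simp) hLnd hLell hGd]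
    have h3 : (k * W) * ∏ j, dm M j =
        ∑ t, (∏ i ∈ B t, elW v w i) *
          (((k * e) * q t) * ∏ j, (if c t j < 0 then X j * dm M j else 1)) := by
      rw [mul_assoc, hrel, Finset.mul_sum]
      refine Finset.sum_congr rfl fun t _ => ?_
      ring
    have hH1 : ∀ t, Hyp v ε κ L ∅
        (((k * e) * q t) * ∏ j, (if c t j < 0 then X j * dm M j else 1)) :=
      fun t i _ h1 h2 => ((hkgood i h1 h2).mul_right _).mul_right _
    have hH1' : ∀ t, Hyp v ε κ L ∅ ((∏ i ∈ B t, elW v w i) *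
        (((k * e) * q t) * ∏ j, (if c t j < 0 then X j * dm M j else 1))) :=
      fun t => (hH1 t).mul_left _
    rw [h3, FW_sum v w hwp ε hε κ s hs' _ _ _ _ _ (fun t _ => hH1' t)]
    refine Finset.sum_eq_zero fun t _ => ?_
    obtain ⟨L', hL'⟩ := FW_steps v w hwp ε hε κ s hs' (yW v θ α T δ ϑ) (B t) L ∅ _
      (Finset.disjoint_empty_right _) hLnd hLell (hH1 t)
    rw [hL', Finset.union_empty]
    refine FW_kill v w ε κ s _ _ (B t) (fun S q' hS => ?_) L' _ _ subset_rfl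
    refine killX v w θ α ε hε κ M hκM s T δ ϑ hδ hϑ (c t) (B t) (l t) (hl t) (hlB t) (hlc t)
      (lt_of_le_of_lt ?_ hεϑ) (lt_of_le_of_lt ?_ hεδ) (lt_of_le_of_lt ?_ hT) S q' hS
    · exact mul_le_mul_of_nonneg_left (hle t) hε.le
    · exact mul_le_mul_of_nonneg_left (hle t) (by positivity)
    · exact mul_le_mul_of_nonneg_left (hle t) (by positivity)
  have hfin : Φ (ph ε) ∅ (lmw s w) (av v) (yW v θ α T δ ϑ) (k * W) =
      ∑ κ ∈ KK, (∏ j, cf (κ j)) * HW v w ε κ s (yW v θ α T δ ϑ) ∅ ((k * W) * ∏ j, dm M j) := by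
    unfold Φ HW
    simp only [← integral_const_mul]
    rw [Finset.map_empty, ← integral_finsetSum]
    · refine integral_congr_ae (Eventually.of_forall fun x => ?_)
      simp only
      rw [← hcf ε hε, Finset.mul_sum]
      exact Finset.sum_congr rfl fun κ _ => by ring
    · intro κ hκ
      have := HW_integrable v w hwp ε hε κ s (hzero κ hκ).2.2 (yW v θ α T δ ϑ) ∅ _
        (hzero κ hκ).2.1
      rw [Finset.map_empty] at this
      exact this.const_mul _
  rw [hfin]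
  exact Finset.sum_eq_zero fun κ hκ => by rw [(hzero κ hκ).1, mul_zero]

end Pool.Agent.W688.NX
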